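import Pool.Agent.W443.J6.Stms2
import Pool.Agent.W305.J6.St1

/-!
# Project J6 (helper443): the direction `(1, 0)`, refined (S_ST2 and S_ST3)
-/

set_option autoImplicit false

open MvPolynomial Pool.Agent.H938R2.JC Pool.Agent.W443.J5 Pool.Agent.W443.J6 Pool.Agent.W305.J6

namespace Pool.Agent.W688.J6

universe u

section

variable {k : Type u} [Field k]

theorem top_of_upp {N V : ℕ} {f : MvPolynomial (Fin 2) k} (h : Upp 1 0 N V f) :
    Top 1 0 (N : ℤ) f := by
  refine ⟨fun m hm => ?_, e N V, h.1, ?_⟩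
  · rcases h.2 m hm with h1 | h1
    · linarith
    · linarith [h1.1]
  · rw [e_zero, e_one]
    ring

theorem natDegree_of_upp {N V : ℕ} {f : MvPolynomial (Fin 2) k} (h : Upp 1 0 N V f) :
    (row N f).natDegree = V := by
  apply Polynomial.natDegree_eq_of_le_of_coeff_ne_zero
  · rw [Polynomial.natDegree_le_iff_coeff_eq_zero]
    intro j hj
    rw [coeff_row]
    by_contra hc
    rcases h.2 _ hc with h1 | h1
    · rw [e_zero, e_one] at h1
      linarith
    · rw [e_zero, e_one] at h1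
      omega
  · rw [coeff_row]
    exact h.1

/-- the shifted pair -/
theorem shifted [CharZero k] (hSIM : S_SIM.{u}) {f g : MvPolynomial (Fin 2) k} {a b p : ℕ}
    (ha : 2 ≤ a) (hb : 2 ≤ b) (hab : Nat.Coprime a b) (hbad : Bad f g) (hs1 : Sim a b f g)
    (htN : Top 1 0 ((a * p : ℕ) : ℤ) f) (y : k) : Bad (sh y f) (sh y g) ∧
      Sim a b (sh y f) (sh y g) ∧ Sim b a (sh y g) (sh y f) := by
  have htg : Top 1 0 ((b * p : ℕ) : ℤ) g := by
    obtain ⟨n, hn, h1, h2⟩ := hs1.1 1 0 _ (Or.inl one_pos) htN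
    have ha0 : (a : ℤ) ≠ 0 := by positivity
    push_cast at h1
    have h3 : n = p := (mul_left_cancel₀ ha0 h1).symm
    rw [h3] at h2
    push_cast
    exact h2
  have hb' := bad_sh y hbad
  refine ⟨hb', ?_⟩
  have t1 := top_sh y (a * p) htN
  have t2 := top_sh y (b * p) htg
  push_cast at t1 t2
  exact hSIM k (sh y f) (sh y g) hb' a b (by omega) (by omega) hab 1 0 p (Or.inl one_pos) t1 t2

end

theorem st2 : S_SIM.{u} → S_DH.{u} → S_E1P.{u} → S_ST2.{u} := by
  intro hSIM hDH hE1 k _ _ _ f g a b p q ha hb hab hp hpq hbad hs1 hs2 hupp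
  have htN := top_of_upp hupp
  have hnd := natDegree_of_upp hupp
  have ham : 1 ≤ a * p := Nat.mul_pos (by omega) (by omega)
  have hapq : a * p < a * q := Nat.mul_lt_mul_of_pos_left hpq (by omega)
  have hU0 : row (a * p) f ≠ 0 := ((top_iff _ _).1 htN).2
  have hbad' := hbad
  obtain ⟨⟨c, hc, hJ⟩, hG⟩ := hbad
  obtain ⟨φ, hφ⟩ := hDH k f g c hc hJ 1 0 ((a * p : ℕ) : ℤ) one_pos (by norm_num)
    (by exact_mod_cast ham) htN (by rw [dh_row, hnd]; omega)
  rw [dh_row, add_zero] at hφ
  obtain ⟨y, hy, hdv⟩ := hE1 k (row (a * p) f) φ (a * p) ham hφ (by rw [hnd]; exact hapq)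
  obtain ⟨r, hq1, hq2⟩ := Polynomial.exists_eq_pow_rootMultiplicity_mul_and_not_dvd
    (row (a * p) f) hU0 y
  have hq : r.eval y ≠ 0 := by
    intro h
    exact hq2 (Polynomial.dvd_iff_isRoot.2 h)
  have hlow := shift_low y (a * p) _ r htN hq1 hq
  obtain ⟨hb1, hs1', hs2'⟩ := shifted hSIM ha hb hab hbad' hs1 htN y
  obtain ⟨p', q', -, hq', -⟩ := hs1'.2.1 1 0 one_pos _ _ hlow
  rw [hq'] at hlow hy
  rw [hnd, hq'] at hdv
  refine ⟨sh y f, sh y g, q', Nat.lt_of_mul_lt_mul_left hy, ?_, hb1, hs1', hs2', hlow⟩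
  rcases hdv with h | h
  · left
    exact Nat.dvd_of_mul_dvd_mul_left (by omega) h
  · right
    exact Nat.eq_of_mul_eq_mul_left (by omega) h

theorem st3 : S_SIM.{u} → S_DH.{u} → S_E1.{u} → S_ST3.{u} := by
  intro hSIM hDH hE1 k _ _ _ f g a b p q ha hb hab hp hpq hbad hs1 hs2 hupp
  have htN := top_of_upp hupp
  have hnd := natDegree_of_upp hupp
  have ham : 1 ≤ a * p := Nat.mul_pos (by omega) (by omega)
  have hapq : a * q < a * p := Nat.mul_lt_mul_of_pos_left hpq (by omega)
  have hU0 : row (a * p) f ≠ 0 := ((top_iff _ _).1 htN).2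
  rcases Nat.eq_zero_or_pos q with h0 | h0
  · subst h0
    refine ⟨f, g, hbad, hs1, hs2, ?_, hupp⟩
    rw [mul_zero] at hnd ⊢
    obtain ⟨u, hu⟩ := Polynomial.natDegree_eq_zero.1 hnd
    have hu0 : u ≠ 0 := by
      rintro rfl
      apply hU0
      rw [← hu, Polynomial.C_0]
    apply low_of _ _ htN
    · rw [← hu, Polynomial.coeff_C_zero]; exact hu0
    · intro j _; omega
  · have hbad' := hbad
    obtain ⟨⟨c, hc, hJ⟩, hG⟩ := hbad
    have haq : 1 ≤ a * q := Nat.mul_pos (by omega) h0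
    obtain ⟨φ, hφ⟩ := hDH k f g c hc hJ 1 0 ((a * p : ℕ) : ℤ) one_pos (by norm_num)
      (by exact_mod_cast ham) htN (by rw [dh_row, hnd]; omega)
    rw [dh_row, add_zero] at hφ
    rcases hE1 k (row (a * p) f) φ (a * p) ham hU0 hφ with h1 | ⟨y, hy⟩ | ⟨y, κ, V, hκ, hV1, hV2, hU⟩
    · omega
    · have h2 : (row (a * p) f).rootMultiplicity y ≤ (row (a * p) f).natDegree :=
        (Polynomial.rootMultiplicity_le_rootMultiplicity_of_dvd hU0 dvd_rfl y).trans (by
          have h3 := Polynomial.pow_rootMultiplicity_dvd (row (a * p) f) y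
          have h4 := Polynomial.natDegree_le_of_dvd h3 hU0
          rwa [Polynomial.natDegree_pow, Polynomial.natDegree_X_sub_C, mul_one] at h4)
      omega
    · have hVn : V = a * q := by
        rw [← hnd, hU, Polynomial.natDegree_C_mul hκ, Polynomial.natDegree_pow,
          Polynomial.natDegree_X_sub_C, mul_one]
      subst hVn
      have hU' : row (a * p) f = (Polynomial.X - Polynomial.C y) ^ (a * q) * Polynomial.C κ := by
        rw [hU, mul_comm]
      have hlow := shift_low y (a * p) (a * q) (Polynomial.C κ) htN hU' (by simpa using hκ)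
      have hrow : row (a * p) (sh y f) = Polynomial.C κ * Polynomial.X ^ (a * q) := by
        rw [row_sh, hU, Polynomial.mul_comp, Polynomial.pow_comp, Polynomial.sub_comp,
          Polynomial.X_comp, Polynomial.C_comp, Polynomial.C_comp, add_sub_cancel_right]
      obtain ⟨hb1, hs1', hs2'⟩ := shifted hSIM ha hb hab hbad' hs1 htN y
      have hupp' : Upp 1 0 (a * p) (a * q) (sh y f) := by
        apply upp_of _ _ (top_sh y _ htN)
        · rw [hrow, Polynomial.coeff_C_mul, Polynomial.coeff_X_pow, if_pos rfl, mul_one]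
          exact hκ
        · intro j hj
          rw [hrow, Polynomial.coeff_C_mul, Polynomial.coeff_X_pow] at hj
          split_ifs at hj with h
          · omega
          · exact absurd (mul_zero _) hj
      exact ⟨sh y f, sh y g, hb1, hs1', hs2', hlow, hupp'⟩

end Pool.Agent.W688.J6
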